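import Mathlib

/-!
MP_e76a7e_co, Q1. For every infinite cardinal `a` there is a graph with chromatic number at least
`a⁺` that contains no subdivision of the complete graph on `a⁺` vertices.

The graph is the comparability graph of the tree of all well-ordered chains of subsets of a set
of size `a`, ordered by end-extension.
-/

set_option autoImplicit false

universe u

namespace Pool.Agent.Results.MP_e76a7e_co.NoLargeSubdivision

open Cardinal SimpleGraph

/-- The chromatic number as a cardinal: the least cardinality of a set of colours for which `G`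
has a proper colouring. -/
noncomputable def chromaticCardinal {V : Type u} (G : SimpleGraph V) : Cardinal.{u} :=
  sInf {κ : Cardinal.{u} | ∃ C : Type u, #C = κ ∧ Nonempty (G.Coloring C)}

/-- `G` contains a subdivision of the complete graph on `κ` vertices: there are a set `B` of `κ`
branch vertices and, for any two distinct `x, y` in `B`, a (finite) path from `x` to `y`, such
that no inner vertex of such a path lies in `B` and paths for different pairs have no common
inner vertex. -/
def ContainsSubdivision {V : Type u} (G : SimpleGraph V) (κ : Cardinal.{u}) : Prop :=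
  ∃ (B : Set V) (P : ∀ x ∈ B, ∀ y ∈ B, x ≠ y → G.Walk x y), #B = κ ∧
    (∀ x (hx : x ∈ B) y (hy : y ∈ B) (h : x ≠ y), (P x hx y hy h).IsPath) ∧
    (∀ x (hx : x ∈ B) y (hy : y ∈ B) (h : x ≠ y), ∀ z ∈ (P x hx y hy h).support,
      z ∈ B → z = x ∨ z = y) ∧
    (∀ x (hx : x ∈ B) y (hy : y ∈ B) (h : x ≠ y) x' (hx' : x' ∈ B) y' (hy' : y' ∈ B)
      (h' : x' ≠ y'), s(x, y) ≠ s(x', y') →
      ∀ z, z ∈ (P x hx y hy h).support → z ∈ (P x' hx' y' hy' h').support → z ∈ B)

/-! ### The tree of well-ordered chains of subsets -/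

/-- `C` is a chain of subsets of `A` that is well-ordered by inclusion. -/
def WO {A : Type u} (C : Set (Set A)) : Prop :=
  IsChain (· ⊆ ·) C ∧ ∀ S : Set (Set A), S ⊆ C → S.Nonempty → ∃ m ∈ S, ∀ x ∈ S, m ⊆ x

/-- the nodes of the tree -/
abbrev Node (A : Type u) : Type u := {C : Set (Set A) // WO C}

/-- `s` is an initial segment of `t` -/
def Ini {A : Type u} (s t : Node A) : Prop :=
  s.1 ⊆ t.1 ∧ ∀ x ∈ t.1, ∀ y ∈ s.1, x ⊆ y → x ∈ s.1

lemma Ini.refl {A : Type u} (s : Node A) : Ini s s := ⟨subset_rfl, fun _ hx _ _ _ => hx⟩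

lemma Ini.trans {A : Type u} {s t r : Node A} (h : Ini s t) (h' : Ini t r) : Ini s r :=
  ⟨h.1.trans h'.1, fun x hx y hy hxy => h.2 x (h'.2 x hx y (h.1 hy) hxy) y hy hxy⟩

lemma Ini.antisymm {A : Type u} {s t : Node A} (h : Ini s t) (h' : Ini t s) : s = t :=
  Subtype.ext (Set.Subset.antisymm h.1 h'.1)

/-- two initial segments of one node are comparable -/
lemma Ini.total {A : Type u} {s t r : Node A} (h : Ini s r) (h' : Ini t r) : Ini s t ∨ Ini t s := by
  by_cases hst : s.1 ⊆ t.1
  · exact Or.inl ⟨hst, fun x hx y hy hxy => h.2 x (h'.1 hx) y hy hxy⟩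
  · right
    obtain ⟨x, hxs, hxt⟩ := Set.not_subset.1 hst
    have hts : t.1 ⊆ s.1 := by
      intro y hy
      rcases r.2.1.total (h.1 hxs) (h'.1 hy) with hxy | hxy
      · exact absurd (h'.2 x (h.1 hxs) y hy hxy) hxt
      · exact h.2 y (h'.1 hy) x hxs hxy
    exact ⟨hts, fun x hx y hy hxy => h'.2 x (h.1 hx) y hy hxy⟩

/-- the comparability graph of the tree -/
def treeGraph (A : Type u) : SimpleGraph (Node A) where
  Adj s t := s ≠ t ∧ (Ini s t ∨ Ini t s)
  symm := ⟨fun _ _ h => ⟨h.1.symm, h.2.symm⟩⟩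
  loopless := ⟨fun _ h => h.1 rfl⟩

/-- a well-ordered chain of subsets of `A` injects into `A` plus a point -/
lemma WO.card_le {A : Type u} {C : Set (Set A)} (hC : WO C) : #C ≤ #(Option A) := by
  classical
  -- an element outside `x` lying in every larger member of `C`
  have h : ∀ x : C, (∃ y ∈ C, x.1 ⊂ y) → ∃ e : A, e ∉ x.1 ∧ ∀ y ∈ C, x.1 ⊂ y → e ∈ y := by
    rintro ⟨x, hx⟩ ⟨y, hy, hxy⟩
    obtain ⟨m, hm, hmin⟩ := hC.2 {z | z ∈ C ∧ x ⊂ z} (fun z hz => hz.1) ⟨y, hy, hxy⟩
    obtain ⟨e, he, hex⟩ := Set.exists_of_ssubset hm.2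
    exact ⟨e, hex, fun z hz hxz => hmin z ⟨hz, hxz⟩ he⟩
  let f : C → Option A := fun x =>
    if hx : ∃ y ∈ C, x.1 ⊂ y then some (h x hx).choose else none
  have hf : Function.Injective f := by
    have key : ∀ x y : C, x.1 ⊂ y.1 → f x ≠ f y := by
      intro x y hxy
      have hx : ∃ y ∈ C, x.1 ⊂ y := ⟨y.1, y.2, hxy⟩
      have h1 : f x = some (h x hx).choose := dif_pos hx
      have h2 := (h x hx).choose_spec
      by_cases hy : ∃ z ∈ C, y.1 ⊂ z
      · have h3 : f y = some (h y hy).choose := dif_pos hy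
        have h4 := (h y hy).choose_spec
        rw [h1, h3]
        intro h5
        have h6 : (h x hx).choose = (h y hy).choose := Option.some.inj h5
        exact h4.1 (h6 ▸ h2.2 y.1 y.2 hxy)
      · have h3 : f y = none := dif_neg hy
        rw [h1, h3]
        simp
    intro x y hxy
    by_contra hne
    have hne' : x.1 ≠ y.1 := fun h => hne (Subtype.ext h)
    rcases hC.1.total x.2 y.2 with h1 | h1
    · exact key x y (h1.ssubset_of_ne hne') hxy
    · exact key y x (h1.ssubset_of_ne hne'.symm) hxy.symm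
  exact Cardinal.mk_le_of_injective hf

/-- a node has few initial segments -/
lemma card_ini_le {A : Type u} (t : Node A) : #{s : Node A | Ini s t} ≤ #(Option t.1) := by
  classical
  have h : ∀ s : {s : Node A | Ini s t}, (∃ x ∈ t.1, x ∉ s.1.1) →
      ∃ m : t.1, m.1 ∉ s.1.1 ∧ ∀ x ∈ t.1, x ∉ s.1.1 → m.1 ⊆ x := by
    rintro ⟨s, hs⟩ ⟨x, hx, hxs⟩
    obtain ⟨m, hm, hmin⟩ := t.2.2 {z | z ∈ t.1 ∧ z ∉ s.1} (fun z hz => hz.1) ⟨x, hx, hxs⟩
    exact ⟨⟨m, hm.1⟩, hm.2, fun z hz hzs => hmin z ⟨hz, hzs⟩⟩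
  let f : {s : Node A | Ini s t} → Option t.1 := fun s =>
    if hs : ∃ x ∈ t.1, x ∉ s.1.1 then some (h s hs).choose else none
  have hf : Function.Injective f := by
    have key : ∀ s r : {s : Node A | Ini s t}, Ini s.1 r.1 → s ≠ r → f s ≠ f r := by
      intro s r hsr hne
      have h0 : ∃ x ∈ r.1.1, x ∉ s.1.1 := by
        by_contra hcon
        push Not at hcon
        exact hne (Subtype.ext (Subtype.ext (Set.Subset.antisymm hsr.1 hcon)))
      obtain ⟨x, hxr, hxs⟩ := h0
      have hxt : x ∈ t.1 := r.2.1 hxr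
      have hs : ∃ x ∈ t.1, x ∉ s.1.1 := ⟨x, hxt, hxs⟩
      have h1 : f s = some (h s hs).choose := dif_pos hs
      have h2 := (h s hs).choose_spec
      have h5 : (h s hs).choose.1 ∈ r.1.1 := r.2.2 _ (h s hs).choose.2 x hxr (h2.2 x hxt hxs)
      by_cases hr : ∃ x ∈ t.1, x ∉ r.1.1
      · have h3 : f r = some (h r hr).choose := dif_pos hr
        have h4 := (h r hr).choose_spec
        rw [h1, h3]
        intro h6
        have h7 : (h s hs).choose = (h r hr).choose := Option.some.inj h6
        exact h4.1 (h7 ▸ h5)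
      · have h3 : f r = none := dif_neg hr
        rw [h1, h3]
        simp
    intro s r hsr
    by_contra hne
    rcases Ini.total s.2 r.2 with h1 | h1
    · exact key s r h1 hne hsr
    · exact key r s h1 (Ne.symm hne) hsr.symm
  exact Cardinal.mk_le_of_injective hf

lemma card_option_le {α : Type u} {a : Cardinal.{u}} (ha : ℵ₀ ≤ a) (h : #α ≤ a) :
    #(Option α) ≤ a := by
  rw [Cardinal.mk_option]
  exact Cardinal.add_le_of_le ha h (Cardinal.one_le_aleph0.trans ha)

lemma card_ini_le' {A : Type u} (hA : ℵ₀ ≤ #A) (t : Node A) : #{s : Node A | Ini s t} ≤ #A :=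
  (card_ini_le t).trans (card_option_le hA (t.2.card_le.trans (card_option_le hA le_rfl)))

/-! ### No large subdivision -/

/-- a walk between incomparable nodes meets a common initial segment -/
lemma exists_common {A : Type u} {s t : Node A} (hst : ¬ Ini s t) (p : (treeGraph A).Walk s t) :
    ∃ w ∈ p.support, Ini w s ∧ Ini w t := by
  have key : ∀ {x y : Node A} (q : (treeGraph A).Walk x y), (∃ z, Ini z x ∧ Ini z s ∧ ¬ Ini z t) →
      (¬ ∃ z, Ini z y ∧ Ini z s ∧ ¬ Ini z t) → ∃ w ∈ q.support, Ini w s ∧ Ini w t := by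
    intro x y q
    induction q with
    | nil => intro h h'; exact absurd h h'
    | @cons x w y hxw q ih =>
      intro hx hy
      by_cases hw : ∃ z, Ini z w ∧ Ini z s ∧ ¬ Ini z t
      · obtain ⟨v, hv, hv'⟩ := ih hw hy
        exact ⟨v, by simp [hv], hv'⟩
      · obtain ⟨z, hzx, hzs, hzt⟩ := hx
        have hwx : Ini w x := by
          rcases hxw.2 with h | h
          · exact absurd ⟨z, hzx.trans h, hzs, hzt⟩ hw
          · exact h
        have hws : Ini w s := by
          rcases Ini.total hzx hwx with h | h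
          · exact absurd ⟨z, h, hzs, hzt⟩ hw
          · exact h.trans hzs
        refine ⟨w, by simp, hws, ?_⟩
        by_contra hwt
        exact hw ⟨w, Ini.refl w, hws, hwt⟩
  refine key p ⟨s, Ini.refl s, Ini.refl s, hst⟩ ?_
  rintro ⟨z, h1, -, h2⟩
  exact h2 h1

/-- a set of pairwise comparable nodes is small -/
lemma card_chain_le {A : Type u} (hA : ℵ₀ ≤ #A) (B : Set (Node A))
    (hB : ∀ s ∈ B, ∀ t ∈ B, Ini s t ∨ Ini t s) : #B ≤ #A := by
  have hU : WO (⋃ s ∈ B, s.1) := by
    constructor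
    · intro x hx y hy _
      simp only [Set.mem_iUnion] at hx hy
      obtain ⟨s, hs, hx⟩ := hx
      obtain ⟨t, ht, hy⟩ := hy
      rcases hB s hs t ht with h | h
      · exact t.2.1.total (h.1 hx) hy
      · exact s.2.1.total hx (h.1 hy)
    · rintro S hS ⟨x, hx⟩
      have hx' := hS hx
      simp only [Set.mem_iUnion] at hx'
      obtain ⟨s, hs, hxs⟩ := hx'
      have hdown : ∀ y ∈ S, y ⊆ x → y ∈ s.1 := by
        intro y hy hyx
        have hy' := hS hy
        simp only [Set.mem_iUnion] at hy'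
        obtain ⟨t, ht, hyt⟩ := hy'
        rcases hB s hs t ht with h | h
        · exact h.2 y hyt x hxs hyx
        · exact h.1 hyt
      obtain ⟨m, hm, hmin⟩ := s.2.2 {y | y ∈ S ∧ y ⊆ x} (fun y hy => hdown y hy.1 hy.2)
        ⟨x, hx, subset_rfl⟩
      refine ⟨m, hm.1, fun y hy => ?_⟩
      have hy' := hS hy
      simp only [Set.mem_iUnion] at hy'
      obtain ⟨t, ht, hyt⟩ := hy'
      have hcomp : y ⊆ x ∨ x ⊆ y := by
        rcases hB s hs t ht with h | h
        · exact t.2.1.total hyt (h.1 hxs)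
        · exact s.2.1.total (h.1 hyt) hxs
      rcases hcomp with h | h
      · exact hmin y ⟨hy, h⟩
      · exact hm.2.trans h
  have hsub : B ⊆ {s : Node A | Ini s ⟨_, hU⟩} := by
    intro s hs
    refine ⟨?_, ?_⟩
    · intro x hx
      simp only [Set.mem_iUnion]
      exact ⟨s, hs, hx⟩
    · intro x hx y hy hxy
      simp only [Set.mem_iUnion] at hx
      obtain ⟨t, ht, hxt⟩ := hx
      rcases hB s hs t ht with h | h
      · exact h.2 x hxt y hy hxy
      · exact h.1 hxt
  exact (Cardinal.mk_le_mk_of_subset hsub).trans (card_ini_le' hA _)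

lemma no_subdivision {A : Type u} (hA : ℵ₀ ≤ #A) {κ : Cardinal.{u}} (hκ : #A < κ) :
    ¬ ContainsSubdivision (treeGraph A) κ := by
  rintro ⟨B, P, hB, -, hin, hdis⟩
  have hchain : ∀ s ∈ B, ∀ t ∈ B, Ini s t ∨ Ini t s := by
    intro s hs t ht
    by_contra hcon
    push Not at hcon
    obtain ⟨hst, hts⟩ := hcon
    have hne : s ≠ t := by rintro rfl; exact hst (Ini.refl s)
    -- for every third branch vertex a common initial segment on the way through it
    have hz : ∀ z : (B \ {s, t} : Set (Node A)), ∃ c : {w : Node A | Ini w s}, Ini c.1 t ∧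
        ((∃ h : s ≠ z.1, c.1 ∈ (P s hs z.1 z.2.1 h).support) ∨
          ∃ h : z.1 ≠ t, c.1 ∈ (P z.1 z.2.1 t ht h).support) := by
      rintro ⟨z, hz⟩
      have hsz : s ≠ z := fun h => hz.2 (by simp [h])
      have hzt : z ≠ t := fun h => hz.2 (by simp [h])
      obtain ⟨w, hw, hws, hwt⟩ := exists_common hst
        ((P s hs z hz.1 hsz).append (P z hz.1 t ht hzt))
      rw [Walk.mem_support_append_iff] at hw
      refine ⟨⟨w, hws⟩, hwt, ?_⟩
      rcases hw with hw | hw
      · exact Or.inl ⟨hsz, hw⟩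
      · exact Or.inr ⟨hzt, hw⟩
    choose c hct hc using hz
    have hcs : ∀ z, (c z).1 ≠ s := fun z h => hst (h ▸ hct z)
    have hct' : ∀ z, (c z).1 ≠ t := fun z h => hts (h ▸ (c z).2)
    -- a branch vertex on the way through `z` is `z`
    have honly : ∀ z, (c z).1 ∈ B → (c z).1 = z.1 := by
      intro z hz
      rcases hc z with ⟨h, hm⟩ | ⟨h, hm⟩
      · exact (hin _ _ _ _ _ _ hm hz).resolve_left (hcs z)
      · exact (hin _ _ _ _ _ _ hm hz).resolve_right (hct' z)
    have hinj : Function.Injective c := by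
      intro z z' hzz
      by_contra hne'
      have hne'' : z.1 ≠ z'.1 := fun h => hne' (Subtype.ext h)
      have hzs : z.1 ≠ s := fun h => z.2.2 (by simp [h])
      have hzt : z.1 ≠ t := fun h => z.2.2 (by simp [h])
      have hzs' : z'.1 ≠ s := fun h => z'.2.2 (by simp [h])
      have hzt' : z'.1 ≠ t := fun h => z'.2.2 (by simp [h])
      have hmem : (c z).1 ∈ B := by
        have e : (c z).1 = (c z').1 := by rw [hzz]
        rcases hc z with ⟨h, hm⟩ | ⟨h, hm⟩ <;> rcases hc z' with ⟨h', hm'⟩ | ⟨h', hm'⟩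
        · rw [← e] at hm'
          refine hdis _ _ _ _ h _ _ _ _ h' ?_ _ hm hm'
          simp only [ne_eq, Sym2.eq_iff, not_or, not_and]
          exact ⟨fun _ => hne'', fun h => absurd h.symm hzs'⟩
        · rw [← e] at hm'
          refine hdis _ _ _ _ h _ _ _ _ h' ?_ _ hm hm'
          simp only [ne_eq, Sym2.eq_iff, not_or, not_and]
          exact ⟨fun h => absurd h.symm hzs', fun h => absurd h hne⟩
        · rw [← e] at hm'
          refine hdis _ _ _ _ h _ _ _ _ h' ?_ _ hm hm'
          simp only [ne_eq, Sym2.eq_iff, not_or, not_and]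
          exact ⟨fun h => absurd h hzs, fun h => absurd h hne''⟩
        · rw [← e] at hm'
          refine hdis _ _ _ _ h _ _ _ _ h' ?_ _ hm hm'
          simp only [ne_eq, Sym2.eq_iff, not_or, not_and]
          exact ⟨fun h => absurd h hne'', fun h => absurd h hzt⟩
      have h1 := honly z hmem
      have h2 := honly z' (by rw [← hzz]; exact hmem)
      rw [← hzz] at h2
      exact hne'' (h1.symm.trans h2)
    have h1 : #(B \ {s, t} : Set (Node A)) ≤ #A :=
      (Cardinal.mk_le_of_injective hinj).trans (card_ini_le' hA s)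
    have h2 : #B ≤ #(B \ {s, t} : Set (Node A)) + #({s, t} : Set (Node A)) := by
      have h3 : B ⊆ (B \ {s, t}) ∪ {s, t} := by
        intro x hx
        by_cases h : x ∈ ({s, t} : Set (Node A))
        · exact Or.inr h
        · exact Or.inl ⟨hx, h⟩
      exact (Cardinal.mk_le_mk_of_subset h3).trans (Cardinal.mk_union_le _ _)
    have h3 : #({s, t} : Set (Node A)) ≤ ℵ₀ := by
      have : Finite ({s, t} : Set (Node A)) := Set.Finite.to_subtype (by simp)
      exact Cardinal.mk_le_aleph0
    have h4 : #B ≤ #A := h2.trans (Cardinal.add_le_of_le hA h1 (h3.trans hA))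
    rw [hB] at h4
    exact absurd h4 (not_le.2 hκ)
  have := card_chain_le hA B hchain
  rw [hB] at this
  exact absurd this (not_le.2 hκ)

/-! ### The chromatic number is large -/

section Colour

variable {A : Type u} (g : Set (Set A) → Set A)

/-- the transfinite sequence defined by `g` -/
noncomputable def F (g : Set (Set A) → Set A) (ξ : Ordinal.{u}) : Set A :=
  g (Set.range fun η : Set.Iio ξ => F g η.1)
termination_by ξ
decreasing_by exact η.2

lemma F_eq (ξ : Ordinal.{u}) : F g ξ = g (Set.range fun η : Set.Iio ξ => F g η.1) := by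
  rw [F]

end Colour

lemma no_colouring {A : Type u} (f : (treeGraph A).Coloring A) : False := by
  classical
  -- the set of colours used on the initial segments of a node
  let c : Node A → Set A := fun t => {n | ∃ s, Ini s t ∧ f s = n}
  have hc : ∀ s t : Node A, Ini s t → s ≠ t → c s ⊂ c t := by
    intro s t hst hne
    rw [Set.ssubset_iff_of_subset]
    · refine ⟨f t, ⟨t, Ini.refl t, rfl⟩, ?_⟩
      rintro ⟨r, hr, hrf⟩
      have hrt : r ≠ t := by
        rintro rfl
        exact hne (hst.antisymm hr)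
      exact f.valid (show (treeGraph A).Adj r t from ⟨hrt, Or.inl (hr.trans hst)⟩) hrf
    · rintro n ⟨r, hr, hrf⟩
      exact ⟨r, hr.trans hst, hrf⟩
  let g : Set (Set A) → Set A := fun C => if h : WO C then c ⟨C, h⟩ else ∅
  have main : ∀ ξ : Ordinal.{u}, ∀ η < ξ, F g η ⊂ F g ξ := by
    intro ξ
    induction ξ using WellFoundedLT.induction with
    | _ ξ ih =>
      -- monotone below `ξ`
      have hmono : ∀ η ζ, ζ < ξ → (F g η ⊆ F g ζ → η < ξ → η ≤ ζ) := by
        intro η ζ hζ hsub hη
        by_contra hcon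
        exact (ih η hη ζ (not_le.1 hcon)).not_subset hsub
      have hWO : ∀ θ ≤ ξ, WO (Set.range fun η : Set.Iio θ => F g η.1) := by
        intro θ hθ
        constructor
        · rintro _ ⟨⟨η, hη⟩, rfl⟩ _ ⟨⟨ζ, hζ⟩, rfl⟩ hne
          rcases lt_trichotomy η ζ with h | h | h
          · exact Or.inl (ih ζ (lt_of_lt_of_le hζ hθ) η h).subset
          · subst h; exact absurd rfl hne
          · exact Or.inr (ih η (lt_of_lt_of_le hη hθ) ζ h).subset
        · rintro S hS ⟨x, hx⟩
          obtain ⟨⟨η₀, hη₀⟩, rfl⟩ := hS hx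
          have hex : ∃ η, η < θ ∧ F g η ∈ S := ⟨η₀, hη₀, hx⟩
          obtain ⟨m, hm, hmin⟩ := WellFounded.has_min (wellFounded_lt (α := Ordinal.{u}))
            {η | η < θ ∧ F g η ∈ S} hex
          refine ⟨F g m, hm.2, ?_⟩
          intro y hy
          obtain ⟨⟨η, hη⟩, rfl⟩ := hS hy
          have h1 : ¬ η < m := hmin η ⟨hη, hy⟩
          rcases (not_lt.1 h1).lt_or_eq with h2 | h2
          · exact (ih η (lt_of_lt_of_le hη hθ) m h2).subset
          · subst h2; exact subset_rfl
      intro η hη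
      rw [F_eq g η, F_eq g ξ]
      have e1 : g (Set.range fun ζ : Set.Iio η => F g ζ.1) = c ⟨_, hWO η hη.le⟩ :=
        dif_pos (hWO η hη.le)
      have e2 : g (Set.range fun ζ : Set.Iio ξ => F g ζ.1) = c ⟨_, hWO ξ le_rfl⟩ :=
        dif_pos (hWO ξ le_rfl)
      rw [e1, e2]
      apply hc
      · constructor
        · rintro _ ⟨⟨ζ, hζ⟩, rfl⟩
          exact ⟨⟨ζ, lt_trans hζ hη⟩, rfl⟩
        · rintro _ ⟨⟨ζ, hζ⟩, rfl⟩ _ ⟨⟨θ, hθ⟩, rfl⟩ hsub
          exact ⟨⟨ζ, lt_of_le_of_lt (hmono ζ θ (lt_trans hθ hη) hsub hζ) hθ⟩, rfl⟩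
      · intro heq
        have h1 : F g η ∈ Set.range fun ζ : Set.Iio ξ => F g ζ.1 := ⟨⟨η, hη⟩, rfl⟩
        have h2 := congrArg Subtype.val heq
        simp only at h2
        rw [← h2] at h1
        obtain ⟨⟨ζ, hζ⟩, hζ'⟩ := h1
        exact (ih η hη ζ hζ).ne hζ'
  have hinj : Function.Injective (F g) := by
    intro η ζ h
    rcases lt_trichotomy η ζ with h1 | h1 | h1
    · exact absurd h (main ζ η h1).ne
    · exact h1
    · exact absurd h.symm (main η ζ h1).ne
  exact not_injective_of_ordinal _ hinj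

/-- For every infinite cardinal `a` there is a graph `G` with chromatic number at least `a⁺` that
contains no subdivision of the complete graph on `a⁺` vertices. -/
theorem result (a : Cardinal.{u}) (ha : ℵ₀ ≤ a) :
    ∃ (V : Type u) (G : SimpleGraph V),
      Order.succ a ≤ chromaticCardinal G ∧ ¬ ContainsSubdivision G (Order.succ a) := by
  obtain ⟨A, rfl⟩ : ∃ A : Type u, #A = a := ⟨a.out, Cardinal.mk_out a⟩
  refine ⟨Node A, treeGraph A, ?_, no_subdivision ha (Order.lt_succ _)⟩
  apply le_csInf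
  · exact ⟨_, Node A, rfl, ⟨(treeGraph A).selfColoring⟩⟩
  · rintro κ ⟨C, rfl, ⟨f⟩⟩
    rw [Order.succ_le_iff]
    by_contra hcon
    obtain ⟨e⟩ := not_lt.1 hcon
    have f' : (treeGraph A).Coloring A := Coloring.mk (fun t => e (f t)) (by
      intro s t hst h
      exact f.valid hst (e.injective h))
    exact no_colouring f'

end Pool.Agent.Results.MP_e76a7e_co.NoLargeSubdivision
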